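import Pool.Agent.Helper78.Dis.Arith4
import Pool.Agent.Helper78.Dis.Arith5

/-!
# The dissonance point of numerical monoids generated by arithmetic sequences

Let `a ≥ 2` and `d ≥ 1` be coprime and `1 ≤ k < a`.  The theorem determines the dissonance point of
the numerical monoid `⟨a, a + d, …, a + k d⟩` (for `k = 1`: of an arbitrary numerical monoid with
two generators).
-/

set_option autoImplicit false

namespace Pool.Agent.Results.MP_b95813_al.ArithSeq

open Pool.Agent.Helper78.Dis

/-- **Main theorem.** -/
theorem result (a d k : ℕ) (ha : 2 ≤ a) (hd : 1 ≤ d) (hk : 1 ≤ k) (hka : k < a)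
    (hcop : Nat.Coprime a d) :
    IsDis (AddSubmonoid.closure {x : ℕ | ∃ i ≤ k, x = a + i * d})
      (if k = 1 then a * (a * ((a - 2) / d + 1) - 1)
        else if k ∣ a - 2 then a * (a - 1 - (a - 2) / k) else 0) := by
  split_ifs with h1 h2
  · subst h1
    exact isDis_caseC ha hd hcop
  · exact isDis_caseB ha hd (by omega) hka hcop h2
  · exact isDis_caseA ha hd (by omega) hka hcop h2

end Pool.Agent.Results.MP_b95813_al.ArithSeq
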