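import Pool.Agent.Helper78.Dis.General

/-!
# The dissonance point of the omega-primality function of an arbitrary numerical monoid

Let `Γ ≠ ℕ` be a numerical monoid with smallest atom `a`, second smallest atom `b` and Frobenius
number `F`.  The theorem computes the omega-primality function, its quasilinear form and the
dissonance point through the heights of multisets of atoms, all of them finite computations, and
bounds the dissonance point by `a ⌊F / (b - a)⌋`.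
-/

set_option autoImplicit false

namespace Pool.Agent.Results.MP_b95813_al.Exact

open Pool.Agent.Helper78.Dis

lemma hyp_of {Γ : AddSubmonoid ℕ} {a b F : ℕ} (hF : IsGreatest {x | x ∉ Γ} F)
    (ha : IsLeast {x | IsAt Γ x} a) (hb : IsLeast {x | IsAt Γ x ∧ x ≠ a} b) : Hyp2 Γ a b F := by
  have hFm : ∀ x, F < x → x ∈ Γ := by
    intro x hx
    by_contra h
    have := hF.2 h
    omega
  have haA : IsAt Γ a := ha.1
  have hmin : ∀ x ∈ Γ, x ≠ 0 → a ≤ x := by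
    have hex : ∃ x, x ∈ Γ ∧ x ≠ 0 := ⟨F + 1, hFm _ (by omega), by omega⟩
    classical
    obtain ⟨h1, h2⟩ := Nat.find_spec hex
    have h3 : IsAt Γ (Nat.find hex) := by
      refine ⟨h1, h2, ?_⟩
      intro y hy z hz hyz
      by_contra hcon
      push Not at hcon
      have h4 := Nat.find_min' hex ⟨hy, hcon.1⟩
      have h5 := Nat.find_min' hex ⟨hz, hcon.2⟩
      omega
    intro x hx hx0
    exact (ha.2 h3).trans (Nat.find_min' hex ⟨hx, hx0⟩)
  refine ⟨⟨haA.1, Nat.pos_of_ne_zero haA.2.1, hmin, hFm⟩, haA, hb.1.1, ?_, ?_⟩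
  · exact lt_of_le_of_ne (ha.2 hb.1.1) (Ne.symm hb.1.2)
  · intro x hx hxa
    exact hb.2 ⟨hx, hxa⟩

/-- **Main theorem.** -/
theorem result (Γ : AddSubmonoid ℕ) (a b F : ℕ) (hF : IsGreatest {x | x ∉ Γ} F)
    (ha : IsLeast {x | IsAt Γ x} a) (hb : IsLeast {x | IsAt Γ x ∧ x ≠ a} b) :
    (∀ N, IsGreatest {s : ℕ | ∃ B, Adm Γ a N B ∧ (s = B.card ∨ (a : ℤ) * s = N + ht Γ a N B)}
      (omega Γ N)) ∧
    (∃ f : ℕ → ℕ, IsQuasilinear f ∧ (∀ N, (a : ℤ) * f N = N + top Γ a N) ∧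
      ∀ N, a * (F / (b - a)) < N → omega Γ N = f N) ∧
    (∀ N, ∃ B, Descent Γ a N B ∧ ht Γ a N B = top Γ a N ∧ B.card ≤ F / (b - a)) ∧
    (∃ D, IsDis Γ D ∧ D ≤ a * (F / (b - a)) ∧ ∀ D', IsDis Γ D' → D' = D) ∧
    (∀ D, IsDis Γ D ↔ IsGreatest
      ({N | N ∈ Γ ∧ ∃ B, Corner Γ a N B ∧ (N : ℤ) = a * (B.card - 1) - top Γ a N} ∪
        {N | N ∈ Γ ∧ ∀ B : Multiset ℕ, Adm Γ a N B →
          (a : ℤ) * B.card - N < top Γ a N ∧ ht Γ a N B < top Γ a N}) D) := by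
  have hH := hyp_of hF ha hb
  refine ⟨omega_greatest hH, ⟨lin Γ a, lin_quasilinear hH, lin_spec hH, fun N hN =>
    omega_eq_lin hH hN⟩, exists_small_max hH, ?_, isDis_iff hH⟩
  have hbd : ∀ N, N ∈ Γ ∧ omega Γ N ≠ lin Γ a N → N ≤ a * (F / (b - a)) := by
    rintro N ⟨-, h⟩
    by_contra hcon
    push Not at hcon
    exact h (omega_eq_lin hH hcon)
  obtain ⟨N₁, hN₁⟩ := exists_dissonance hH
  have hfin : {N | N ∈ Γ ∧ omega Γ N ≠ lin Γ a N}.Finite :=
    (Set.finite_Iic (a * (F / (b - a)))).subset hbd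
  obtain ⟨D, hD⟩ := Set.exists_max_image _ id hfin ⟨N₁, hN₁⟩
  have hDG : IsGreatest {N | N ∈ Γ ∧ omega Γ N ≠ lin Γ a N} D := ⟨hD.1, fun N hN => hD.2 N hN⟩
  refine ⟨D, ⟨lin Γ a, lin_quasilinear hH, ⟨a * (F / (b - a)) + 1,
        fun n hn => omega_eq_lin hH (Nat.lt_of_succ_le hn)⟩, hDG⟩, hbd D hD.1, ?_⟩
  rintro D' ⟨f, hf, ⟨n₀, hn₀⟩, hD'⟩
  have hfl : f = lin Γ a := by
    apply IsQuasilinear.unique hf (lin_quasilinear hH) (n₀ := max n₀ (a * (F / (b - a)) + 1))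
    intro n hn
    rw [← hn₀ n (le_of_max_le_left hn),
      omega_eq_lin hH (Nat.lt_of_succ_le (le_of_max_le_right hn))]
  rw [hfl] at hD'
  exact hD'.unique hDG

end Pool.Agent.Results.MP_b95813_al.Exact
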