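import Pool.Agent.Helper30.Dis.Formula

/-!
# The dissonance point as a function of the minimal generators

Let `S` be the set of minimal generators of a numerical monoid different from `ℕ`, `a < b` its two
least elements and `F` the Frobenius number.  The dissonance point is
`max_r (a τ_r - A_r)`, over the residues `r` modulo `a` for which this number lies in the monoid,
where `A_r` and `τ_r` are explicit finite maxima computed from the generators.
-/

set_option autoImplicit false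

namespace Pool.Agent.Results.MP_b95813_al.Formula

open Pool.Agent.Helper78.Dis Pool.Agent.Helper30.Dis

/-- **Main theorem.** -/
theorem result (S : Finset ℕ) (a b F : ℕ)
    (hS : ∀ x ∈ S, x ∉ AddSubmonoid.closure ((S.erase x : Finset ℕ) : Set ℕ))
    (ha : IsLeast (S : Set ℕ) a) (hb : IsLeast ((S.erase a : Finset ℕ) : Set ℕ) b)
    (hF : IsGreatest {x | x ∉ AddSubmonoid.closure (S : Set ℕ)} F) :
    ∃ (A τ : ℕ → ℤ) (D : ℕ),
      (∀ r : ℕ, IsGreatest {x : ℤ | (a : ℤ) ∣ x + (r : ℤ) ∧ ∃ B, PPs S a x B} (A r)) ∧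
      (∀ r : ℕ, IsGreatest
        ({t : ℤ | ∃ B, PP S a (A r + a) B ∧ t = (B.card : ℤ) - 1} ∪
          {t : ℤ | 0 ≤ t ∧ (∀ B, PPs S a (A r) B → t < B.card) ∧
            ∀ B, PP S a (A r) B → t ≠ B.card}) (τ r)) ∧
      IsGreatest {n : ℕ | InS S n ∧ ∃ r < a, (n : ℤ) = a * τ r - A r} D ∧
      IsDis (AddSubmonoid.closure (S : Set ℕ)) D ∧
      (∀ D', IsDis (AddSubmonoid.closure (S : Set ℕ)) D' → D' = D) ∧
      D ≤ a * (F / (b - a)) ∧
      (∀ N : ℕ, a * (F / (b - a)) < N →
        (a : ℤ) * omega (AddSubmonoid.closure (S : Set ℕ)) N = N + A N) ∧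
      (∀ (r : ℕ) (B : Multiset ℕ), PP S a (A r + a) B → B.card ≤ F / (b - a) + 1) ∧
      (∀ r : ℕ, ∃ B, PPs S a (A r) B ∧ B.card ≤ F / (b - a)) := by
  have hH := hyp2 hS hF ha hb
  choose τ hτ using exists_tau hS hH
  obtain ⟨D, h1, h2, h3, h4⟩ := isDis_formula hS hH τ hτ
  refine ⟨top (AddSubmonoid.closure (S : Set ℕ)) a, τ, D, top_greatest hS hH, hτ, ?_, h3, h4, h2,
    ?_, fun r B hB => card_le_of_pp hS hH hB, ?_⟩
  · have e : {n : ℕ | InS S n ∧
        ∃ r < a, (n : ℤ) = a * τ r - top (AddSubmonoid.closure (S : Set ℕ)) a r}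
        = {n : ℕ | n ∈ AddSubmonoid.closure (S : Set ℕ) ∧
        ∃ r < a, (n : ℤ) = a * τ r - top (AddSubmonoid.closure (S : Set ℕ)) a r} := by
      ext n
      simp only [Set.mem_ofPred_eq, inS_iff]
      constructor
      · rintro ⟨⟨g, hg, hgn⟩, h⟩
        have : g = n := by exact_mod_cast hgn
        rw [this] at hg
        exact ⟨hg, h⟩
      · rintro ⟨hn, h⟩
        exact ⟨⟨n, hn, rfl⟩, h⟩
    rw [e]
    exact h1
  · intro N hN
    rw [omega_eq_lin hH hN]
    exact lin_spec hH N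
  · intro r
    obtain ⟨B, k1, k2, k3⟩ := exists_small_max hH r
    exact ⟨B, (pps_iff hS hH (dvd_top hH r) B).2 ⟨k1, k2⟩, k3⟩

end Pool.Agent.Results.MP_b95813_al.Formula
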