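import Pool.Agent.Helper30.Dis.Red2

/-!
# The Frobenius number is computed from the dissonance point

Let `s₁ < ⋯ < s_k` be the minimal generators of a numerical monoid with Frobenius number `f`, and
`q ≥ s_k + 4`.  The numbers `q s₁, q s₁ + 1, q s₂, …, q s_k` are the minimal generators of a
numerical monoid whose dissonance point `D` is divisible by `q`, and
`f = (a + 1) ⌊d / a⌋ - d`, where `a = q s₁` and `d = D / q`.
-/

set_option autoImplicit false

namespace Pool.Agent.Results.MP_b95813_al.FrobeniusReduction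

open Pool.Agent.Helper78.Dis Pool.Agent.Helper30.Dis

/-- **Main theorem.** -/
theorem result (S : Finset ℕ) (s m f q : ℕ)
    (hS : ∀ x ∈ S, x ∉ AddSubmonoid.closure ((S.erase x : Finset ℕ) : Set ℕ))
    (hs : IsLeast (S : Set ℕ) s) (hm : IsGreatest (S : Set ℕ) m)
    (hf : IsGreatest {x | x ∉ AddSubmonoid.closure (S : Set ℕ)} f) (hq : m + 4 ≤ q)
    (T : Finset ℕ) (hT : T = insert (q * s + 1) (S.image fun x => q * x)) :
    T.card = S.card + 1 ∧
      (∀ x ∈ T, x ∉ AddSubmonoid.closure ((T.erase x : Finset ℕ) : Set ℕ)) ∧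
      {x | x ∉ AddSubmonoid.closure (T : Set ℕ)}.Finite ∧
      ∃ D, IsDis (AddSubmonoid.closure (T : Set ℕ)) D ∧
        (∀ D', IsDis (AddSubmonoid.closure (T : Set ℕ)) D' → D' = D) ∧
        q ∣ D ∧ (q * s + 1) * (D / q / (q * s)) = D / q + f := by
  have hm' : ∀ x ∈ S, x ≤ m := fun x hx => hm.2 (Finset.mem_coe.2 hx)
  have hfr := frob_le hS hs hf hm'
  have hs0 : 0 < s := by
    rcases Nat.eq_zero_or_pos s with h1 | h1
    · have h2 : s ∈ S := Finset.mem_coe.1 hs.1
      exact absurd (h1 ▸ h2) (zero_notMem hS)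
    · exact h1
  have h : Base S s f m q := by
    refine ⟨hS, hs, hf, hm', ?_⟩
    have h1 : (m + 4) * s ≤ q * s := Nat.mul_le_mul_right s hq
    have h2 : (m + 4) * s = s * m + 4 * s := by ring
    omega
  have hTg : T = gq S s q := hT
  subst hTg
  have hq5 := h.q5
  have hgap := h.gap
  refine ⟨?_, h.minimal, ?_, ?_⟩
  · unfold gq
    rw [Finset.card_insert_of_notMem, Finset.card_image_of_injective]
    · intro x y hxy
      exact Nat.eq_of_mul_eq_mul_left (by omega) hxy
    · intro hmem
      obtain ⟨x, -, hx⟩ := Finset.mem_image.1 hmem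
      have h1 : q ∣ 1 := by
        have h2 : q ∣ q * s + 1 := ⟨x, hx.symm⟩
        exact (Nat.dvd_add_right (dvd_mul_right q s)).1 h2
      have := Nat.le_of_dvd one_pos h1
      omega
  · exact (Set.finite_Iic _).subset hgap.2
  · obtain ⟨n, b, hb0, hb1, h1, h2, h3⟩ := h.isDis
    refine ⟨q * n, h2, h3, dvd_mul_right q n, ?_⟩
    rw [Nat.mul_div_cancel_left n (by omega)]
    have hq0 := h.q0
    have hp := h.p_gt
    have hs0' : (0 : ℤ) < s := by exact_mod_cast hs0
    have hm0 : (0 : ℤ) ≤ m := Int.natCast_nonneg _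
    have hf0 : (0 : ℤ) ≤ f := Int.natCast_nonneg _
    obtain ⟨K, hK⟩ : ∃ K : ℕ, (K : ℤ) = q * s + f - s - b :=
      ⟨_, Int.toNat_of_nonneg (by linarith)⟩
    obtain ⟨r, hr⟩ : ∃ r : ℕ, (r : ℤ) = q * s - s - b := ⟨_, Int.toNat_of_nonneg (by linarith)⟩
    have hn : (n : ℤ) = (q * s + 1) * K - f := by
      have h4 : (q : ℤ) * n = q * ((q * s + 1) * K - f) := by
        push_cast at h1
        rw [h1, hK]
        unfold Dq
        ring
      exact mul_left_cancel₀ hq0.ne' h4
    have hn2 : n = (q * s) * K + r := by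
      have h4 : (n : ℤ) = (q * s) * K + r := by
        rw [hn, hr]
        linear_combination hK
      exact_mod_cast h4
    have hrlt : r < q * s := by
      have h4 : (r : ℤ) < q * s := by linarith
      exact_mod_cast h4
    have hdiv : n / (q * s) = K := by
      rw [hn2, Nat.mul_add_div (Nat.mul_pos (by omega) hs0), Nat.div_eq_of_lt hrlt, Nat.add_zero]
    rw [hdiv]
    have h5 : (((q * s + 1) * K : ℕ) : ℤ) = ((n + f : ℕ) : ℤ) := by
      push_cast
      linarith
    exact_mod_cast h5

end Pool.Agent.Results.MP_b95813_al.FrobeniusReduction
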